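import Pool.Agent.Y321.PJ.Main

/-!
# MP_610fe3_an: periodic points that change the volume connect densely in non-transitive Anosov systems

`IsAnosov f Es Eu`: `f` is an Anosov diffeomorphism with splitting `TM = Es ⊕ Eu`
(`Pool/Agent/H789R2/AN`), `TopTransitive f`: topological transitivity (`Pool/Agent/H721R2`).
-/

set_option autoImplicit false

open scoped Manifold ContDiff Topology
open Set Filter

namespace Pool.Agent.Results.MP_610fe3_an.PeriodicJacobians

open Pool.Agent.H721R2 Pool.Agent.H789R2.AN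

/-- `|det D(fⁿ)(p)|`, for a point `p` with `fⁿ(p) = p`: the absolute value of the determinant of
the derivative of `fⁿ` at `p`, which is an endomorphism of the tangent space at `p`. -/
noncomputable def perJac (E : Type*) [NormedAddCommGroup E] [NormedSpace ℝ E]
    {M : Type*} [TopologicalSpace M] [ChartedSpace E M] (f : M → M) (n : ℕ) (p : M) : ℝ :=
  |(mfderiv 𝓘(ℝ, E) 𝓘(ℝ, E) (f^[n]) p : E →L[ℝ] E).det|

/-- **Periodic Jacobians of Anosov diffeomorphisms that are not transitive.**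
Let `f` be a `C²` Anosov diffeomorphism of a closed connected smooth manifold `M` which is not
topologically transitive.  Then there are `n ≥ 1` and two finite sets `P`, `Q` of points fixed by
`fⁿ` such that

* `|det D(fⁿ)(p)| < 1` for all `p ∈ P`, and `|det D(fⁿ)(q)| > 1` for all `q ∈ Q`;
* for a dense set of points `x ∈ M`, `f^(n k)(x)` converges to a point of `P` and `f^(-n k)(x)`
  converges to a point of `Q` as `k → ∞`.

So `f` is transitive as soon as there is no heteroclinic connection from a volume expanding to a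
volume contracting periodic point (see `transitive_of_jacobian`). -/
theorem result (E : Type*) [NormedAddCommGroup E] [NormedSpace ℝ E] [FiniteDimensional ℝ E]
    (M : Type*) [TopologicalSpace M] [T2Space M] [CompactSpace M] [ConnectedSpace M]
    [ChartedSpace E M] [IsManifold 𝓘(ℝ, E) ∞ M] (f : Diffeomorph 𝓘(ℝ, E) 𝓘(ℝ, E) M M 1)
    (hf2 : ContMDiff 𝓘(ℝ, E) 𝓘(ℝ, E) 2 f) (hf2' : ContMDiff 𝓘(ℝ, E) 𝓘(ℝ, E) 2 f.symm)
    (Es Eu : ∀ x : M, Submodule ℝ (TangentSpace 𝓘(ℝ, E) x)) (hA : IsAnosov f Es Eu)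
    (hnt : ¬ TopTransitive f) :
    ∃ (n : ℕ) (P Q : Set M), 1 ≤ n ∧ P.Finite ∧ Q.Finite ∧
      (∀ p ∈ P, f^[n] p = p ∧ perJac E f n p < 1) ∧
      (∀ q ∈ Q, f^[n] q = q ∧ 1 < perJac E f n q) ∧
      Dense {x : M | (∃ p ∈ P, Tendsto (fun k : ℕ => f^[n * k] x) atTop (𝓝 p)) ∧
        ∃ q ∈ Q, Tendsto (fun k : ℕ => f.symm^[n * k] x) atTop (𝓝 q)} :=
  Pool.Agent.Y321.PJ.main f hf2 hf2' Es Eu hA hnt

/-- **A one-sided condition at the periodic points implies transitivity.** A `C²` Anosov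
diffeomorphism of a closed connected manifold is topologically transitive if
`|det D(fᵏ)(p)| ≥ 1` whenever `k ≥ 1` and `fᵏ(p) = p`, or if `|det D(fᵏ)(p)| ≤ 1` whenever `k ≥ 1`
and `fᵏ(p) = p`. -/
theorem transitive_of_jacobian (E : Type*) [NormedAddCommGroup E] [NormedSpace ℝ E]
    [FiniteDimensional ℝ E] (M : Type*) [TopologicalSpace M] [T2Space M] [CompactSpace M]
    [ConnectedSpace M] [ChartedSpace E M] [IsManifold 𝓘(ℝ, E) ∞ M]
    (f : Diffeomorph 𝓘(ℝ, E) 𝓘(ℝ, E) M M 1)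
    (hf2 : ContMDiff 𝓘(ℝ, E) 𝓘(ℝ, E) 2 f) (hf2' : ContMDiff 𝓘(ℝ, E) 𝓘(ℝ, E) 2 f.symm)
    (Es Eu : ∀ x : M, Submodule ℝ (TangentSpace 𝓘(ℝ, E) x)) (hA : IsAnosov f Es Eu)
    (h : (∀ (k : ℕ) (p : M), 1 ≤ k → f^[k] p = p → 1 ≤ perJac E f k p) ∨
      (∀ (k : ℕ) (p : M), 1 ≤ k → f^[k] p = p → perJac E f k p ≤ 1)) :
    TopTransitive f := by
  by_contra hnt
  obtain ⟨n, P, Q, hn, -, -, hP, hQ, hd⟩ := result E M f hf2 hf2' Es Eu hA hnt
  obtain ⟨x, ⟨p, hp, -⟩, ⟨q, hq, -⟩⟩ := hd.nonempty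
  rcases h with h | h
  · exact absurd (h n p hn (hP p hp).1) (not_le.mpr (hP p hp).2)
  · exact absurd (h n q hn (hQ q hq).1) (not_le.mpr (hQ q hq).2)

end Pool.Agent.Results.MP_610fe3_an.PeriodicJacobians
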