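import Pool.Agent.Y331.EP.Trans
import Pool.Agent.Q184.AN.NW

set_option autoImplicit false

open scoped Manifold ContDiff Topology
open Set Filter

namespace Pool.Agent.Results.MP_610fe3_an.QuasiOpenExtensions

open Pool.Agent.H721R2 Pool.Agent.H789R2.AN Pool.Agent.TH289 Pool.Agent.TH289.K
open Pool.Agent.TH289.L Pool.Agent.Y331.EP Pool.Agent.Q184.AN

/-- **Transitivity of Anosov diffeomorphisms that are quasi-open extensions.**
Let `f` be a `C¹` Anosov diffeomorphism of a closed connected manifold `M`.

(1) Let `g` be a homeomorphism of a compact Hausdorff space `Y` without wandering points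
(`Nonwandering`: every nonempty open set `V` meets some `gᵐ(V)`, `m ≥ 1`), and let `h : M → Y` be a
map, not necessarily continuous, with `h ∘ f = g ∘ h`, such that the image of every nonempty open set
has nonempty interior and the fibres of `h` over the points of a residual set are finite.  Then `f`
is topologically transitive.

(2) The same holds if `Y` is a T1 space, `g` is a homeomorphism of `Y`, `h` is continuous, the images
of nonempty open sets have nonempty interior, and ONE fibre of `h`, over a point whose (two-sided)
orbit is dense, is finite.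

(3) Let `g` be an expansive homeomorphism without wandering points of a closed topological manifold
`Y` with `dim Y ≤ dim M`, and let `h : M → Y` be continuous with `h ∘ f = g ∘ h`.  If there is a
bound `B` such that, for every `x`, at most `B` points that are both forward and backward asymptotic
to `x` have the same image as `x` (for instance no two different such points have the same image),
then `f` is topologically transitive, and for some `N` all fibres of `h` have at most `N` points.

Here `g` is not assumed to be transitive in (1) and (3), nothing is assumed about the nonwandering set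
of `f`, and no global product structure is assumed. -/
theorem result (E : Type*) [NormedAddCommGroup E] [NormedSpace ℝ E] [FiniteDimensional ℝ E]
    (M : Type*) [MetricSpace M] [CompactSpace M] [ConnectedSpace M]
    [ChartedSpace E M] [IsManifold 𝓘(ℝ, E) ∞ M] (f : Diffeomorph 𝓘(ℝ, E) 𝓘(ℝ, E) M M 1)
    (Es Eu : ∀ x : M, Submodule ℝ (TangentSpace 𝓘(ℝ, E) x)) (hf : IsAnosov f Es Eu) :
    (∀ (Y : Type*) [TopologicalSpace Y] [CompactSpace Y] [T2Space Y] (g : Y ≃ₜ Y),
      Nonwandering g → ∀ h : M → Y, (∀ x, h (f x) = g (h x)) →
      (∀ W : Set M, IsOpen W → W.Nonempty → (interior (h '' W)).Nonempty) →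
      {y | (h ⁻¹' {y}).Finite} ∈ residual Y → TopTransitive f) ∧
    (∀ (Y : Type*) [TopologicalSpace Y] [T1Space Y] (g : Y ≃ₜ Y) (h : C(M, Y)),
      (∀ x, h (f x) = g (h x)) →
      (∀ W : Set M, IsOpen W → W.Nonempty → (interior (h '' W)).Nonempty) →
      ∀ y₀ : Y, (h ⁻¹' {y₀}).Finite → Dense {z | ∃ n : ℕ, g^[n] y₀ = z ∨ g^[n] z = y₀} →
      TopTransitive f) ∧
    (∀ (E' : Type*) [NormedAddCommGroup E'] [NormedSpace ℝ E'] [FiniteDimensional ℝ E']
      (Y : Type*) [MetricSpace Y] [CompactSpace Y] [ChartedSpace E' Y],
      Module.finrank ℝ E' ≤ Module.finrank ℝ E → ∀ g : Y ≃ₜ Y, Expansive g → Nonwandering g →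
      ∀ h : C(M, Y), (∀ x, h (f x) = g (h x)) →
      (∃ B : ℕ, ∀ x, {y | h y = h x ∧ Asym f x y ∧ Asym f.symm x y}.encard ≤ B) →
      TopTransitive f ∧ ∃ N : ℕ, ∀ y, (h ⁻¹' {y}).encard ≤ N) := by
  refine ⟨?_, ?_, ?_⟩
  · intro Y _ _ _ g hg h hh hint hfin
    exact man_nw f Es Eu hf (nw_of_residual (f := f.toHomeomorph) hh hint hfin hg)
  · intro Y _ _ g h hh hint y₀ hfin hd
    exact man_nw f Es Eu hf fun U hU hne =>
      nw_of_one (f := f.toHomeomorph) (g := g) h.continuous hh hint hfin hd U hU hne
  · intro E' _ _ _ Y _ _ _ hdim g hg hnw h hh hB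
    obtain ⟨N, hN⟩ := man_bdd f Es Eu hf g hg h h.continuous hh hB
    have hfin : ∀ y, (h ⁻¹' {y}).Finite := fun y => Set.finite_of_encard_le_coe (hN y)
    refine ⟨man_nw f Es Eu hf (nw_of_residual (f := f.toHomeomorph) hh (fun W hW hne =>
      light_interior (E := E) (E' := E') hdim h.continuous (fun y =>
        (hfin y).countable.isTotallyDisconnected) hW hne) ?_ hnw), N, hN⟩
    have e : {y | (h ⁻¹' {y}).Finite} = univ := by ext y; simp [hfin y]
    rw [e]
    exact univ_mem

end Pool.Agent.Results.MP_610fe3_an.QuasiOpenExtensions
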