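import Pool.Agent.Y330.G.A9

set_option autoImplicit false

open scoped Manifold ContDiff Topology
open Set Filter

namespace Pool.Agent.Results.MP_610fe3_an.UniformGrowth

open Pool.Agent.H721R2 Pool.Agent.H789R2.AN Pool.Agent.Y330.G

/-- **Transitivity of Anosov diffeomorphisms and uniform growth of the local leaves.**
Let `f` be a `C¹` Anosov diffeomorphism of a closed connected manifold `M` with a distance.  For
`ε, δ > 0`, `n ≥ 0` and a point `x` let `P f ε δ n x` be the largest number of points of the local
unstable set `{y | dist (f⁻ᵏ x) (f⁻ᵏ y) ≤ ε for all k ≥ 0}` of `x` that are pairwise separated by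
more than `δ` in some of the times `0, …, n` (it measures the size of the image under `fⁿ` of the
local unstable leaf of `x`); for `f⁻¹` this is the same number for the local stable set.

There is `r > 0` such that, for all `0 < ε ≤ r` and `0 < δ ≤ r`, the following are equivalent.
* `f` is topologically transitive.
* The local unstable leaves of all points grow equally fast under `f`, and the local stable leaves of
  all points grow equally fast under `f⁻¹`, up to a bounded factor: for some `C` one has
  `P f ε δ n x ≤ C * P f ε δ n y` and `P f⁻¹ ε δ n x ≤ C * P f⁻¹ ε δ n y` for all `n`, `x`, `y`.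

So transitivity is a property of the growth of single leaves; it is not assumed that the growth is
purely exponential, and the distance of `M` is arbitrary (compatible with the topology). -/
theorem result (E : Type*) [NormedAddCommGroup E] [NormedSpace ℝ E] [FiniteDimensional ℝ E]
    (M : Type*) [MetricSpace M] [CompactSpace M] [ConnectedSpace M]
    [ChartedSpace E M] [IsManifold 𝓘(ℝ, E) ∞ M] (f : Diffeomorph 𝓘(ℝ, E) 𝓘(ℝ, E) M M 1)
    (Es Eu : ∀ x : M, Submodule ℝ (TangentSpace 𝓘(ℝ, E) x)) (hf : IsAnosov f Es Eu) :
    ∃ r > 0, ∀ ε > 0, ε ≤ r → ∀ δ > 0, δ ≤ r →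
      (TopTransitive f ↔
        (∃ C : ℕ, ∀ n x y, P f.toHomeomorph ε δ n x ≤ C * P f.toHomeomorph ε δ n y) ∧
        ∃ C : ℕ, ∀ n x y, P f.toHomeomorph.symm ε δ n x ≤ C * P f.toHomeomorph.symm ε δ n y) :=
  man_growth f Es Eu hf

end Pool.Agent.Results.MP_610fe3_an.UniformGrowth
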